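import Mathlib
import Pool.Agent.R957.Mmpp.Defs

/-! Energy estimates for Markov-modulated Poisson processes. -/

namespace Pool.Agent.T9h98.Mmpp

open Matrix Pool.R957.Mmpp Finset

variable {p : ℕ} (M : MMPP p) {piv : Fin p → ℝ}

/-- The Dirichlet form of the background chain. -/
noncomputable def energy (piv g : Fin p → ℝ) : ℝ :=
  1 / 2 * ∑ i, ∑ j, piv i * M.Q i j * (g i - g j) ^ 2

lemma energy_nonneg (h : M.IsStat piv) (g : Fin p → ℝ) : 0 ≤ energy M piv g := by
  unfold energy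
  refine mul_nonneg (by norm_num) (sum_nonneg fun i _ => sum_nonneg fun j _ => ?_)
  by_cases hij : i = j
  · subst hij; simp
  · exact mul_nonneg (mul_nonneg (h.nonneg i) (M.gen.offdiag i j hij)) (sq_nonneg _)

lemma col_sum (h : M.IsStat piv) (j : Fin p) : ∑ i, piv i * M.Q i j = 0 := by
  have := congrFun h.stat j
  simpa [Matrix.vecMul, dotProduct] using this

lemma energy_eq (h : M.IsStat piv) (g : Fin p → ℝ) :
    ∑ i, piv i * (g i * (M.Q *ᵥ g) i) = - energy M piv g := by
  have e1 : ∑ i, ∑ j, piv i * M.Q i j * (g i - g j) ^ 2 =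
      ∑ i, ∑ j, piv i * M.Q i j * (g i) ^ 2 - 2 * ∑ i, ∑ j, piv i * M.Q i j * (g i * g j)
        + ∑ i, ∑ j, piv i * M.Q i j * (g j) ^ 2 := by
    rw [mul_sum, ← sum_sub_distrib, ← sum_add_distrib]
    refine sum_congr rfl fun i _ => ?_
    rw [mul_sum, ← sum_sub_distrib, ← sum_add_distrib]
    exact sum_congr rfl fun j _ => by ring
  have e2 : ∑ i, ∑ j, piv i * M.Q i j * (g i) ^ 2 = 0 := by
    refine sum_eq_zero fun i _ => ?_
    rw [← sum_mul, ← mul_sum, M.gen.rowsum i]; ring
  have e3 : ∑ i, ∑ j, piv i * M.Q i j * (g j) ^ 2 = 0 := by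
    rw [sum_comm]
    refine sum_eq_zero fun j _ => ?_
    rw [← sum_mul, col_sum M h j]; ring
  have e4 : ∑ i, piv i * (g i * (M.Q *ᵥ g) i) = ∑ i, ∑ j, piv i * M.Q i j * (g i * g j) := by
    refine sum_congr rfl fun i _ => ?_
    simp only [Matrix.mulVec, dotProduct, mul_sum]
    exact sum_congr rfl fun j _ => by ring
  unfold energy
  rw [e4, e1, e2, e3]; ring

lemma piv_pos (h : M.IsStat piv) (i : Fin p) : 0 < piv i := by
  have hex : ∃ a, 0 < piv a := by
    by_contra hcon
    push Not at hcon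
    have : ∑ i, piv i = 0 := sum_eq_zero fun i _ => le_antisymm (hcon i) (h.nonneg i)
    rw [h.sum_one] at this
    exact one_ne_zero this
  obtain ⟨a, ha⟩ := hex
  have key : ∀ b c, 0 < piv b → 0 < M.Q b c → 0 < piv c := by
    intro b c hb hbc
    by_cases hbc' : b = c
    · exact hbc' ▸ hb
    · by_contra hc
      have hc0 : piv c = 0 := le_antisymm (not_lt.1 hc) (h.nonneg c)
      have hs := col_sum M h c
      have hpos : 0 < ∑ i, piv i * M.Q i c := by
        refine sum_pos' (fun i _ => ?_) ⟨b, mem_univ _, mul_pos hb hbc⟩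
        by_cases hic : i = c
        · subst hic; simp [hc0]
        · exact mul_nonneg (h.nonneg i) (M.gen.offdiag i c hic)
      exact hpos.ne' hs
  have hr := M.gen.irred a i
  induction hr with
  | refl => exact ha
  | tail _ hbc ih => exact key _ _ ih hbc

lemma const_of_energy (h : M.IsStat piv) (g : Fin p → ℝ) (hg : energy M piv g = 0) (i j : Fin p) :
    g i = g j := by
  have key : ∀ b c, 0 < M.Q b c → g b = g c := by
    intro b c hbc
    by_cases hbc' : b = c
    · rw [hbc']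
    have h0 : ∑ i, ∑ j, piv i * M.Q i j * (g i - g j) ^ 2 = 0 := by
      unfold energy at hg
      linarith
    have nn : ∀ i j, 0 ≤ piv i * M.Q i j * (g i - g j) ^ 2 := by
      intro i j
      by_cases hij : i = j
      · subst hij; simp
      · exact mul_nonneg (mul_nonneg (h.nonneg i) (M.gen.offdiag i j hij)) (sq_nonneg _)
    have h1 := (sum_eq_zero_iff_of_nonneg (fun i _ => sum_nonneg fun j _ => nn i j)).1 h0 b
      (mem_univ _)
    have h2 := (sum_eq_zero_iff_of_nonneg (fun j _ => nn b j)).1 h1 c (mem_univ _)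
    have h3 : 0 < piv b * M.Q b c := mul_pos (piv_pos M h b) hbc
    have h4 : (g b - g c) ^ 2 = 0 := by
      rcases mul_eq_zero.1 h2 with h5 | h5
      · exact absurd h5 h3.ne'
      · exact h5
    have h5 : g b - g c = 0 := by simpa using h4
    linarith
  have hr := M.gen.irred i j
  induction hr with
  | refl => rfl
  | tail _ hbc ih => exact ih.trans (key _ _ hbc)

/-- The quadratic form of `s - C`. -/
noncomputable def form (piv : Fin p → ℝ) (s : ℝ) (g : Fin p → ℝ) : ℝ :=
  ∑ i, piv i * ((s + M.lam i) * (g i) ^ 2) + energy M piv g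

lemma D_mulVec (g : Fin p → ℝ) (i : Fin p) : (M.D *ᵥ g) i = M.lam i * g i := by
  simp [MMPP.D, Matrix.mulVec_diagonal]

lemma C_mulVec (g : Fin p → ℝ) (i : Fin p) : (M.C *ᵥ g) i = (M.Q *ᵥ g) i - M.lam i * g i := by
  simp [MMPP.C, Matrix.sub_mulVec, D_mulVec]

lemma form_eq (h : M.IsStat piv) (s : ℝ) (g : Fin p → ℝ) :
    ∑ i, piv i * (g i * (s * g i - (M.C *ᵥ g) i)) = form M piv s g := by
  have e : ∀ i, piv i * (g i * (s * g i - (M.C *ᵥ g) i)) =
      piv i * ((s + M.lam i) * (g i) ^ 2) - piv i * (g i * (M.Q *ᵥ g) i) := by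
    intro i; rw [C_mulVec]; ring
  simp_rw [e]
  rw [sum_sub_distrib, energy_eq M h, form]
  ring

lemma sum_C (h : M.IsStat piv) (s : ℝ) (g : Fin p → ℝ) :
    ∑ i, piv i * (s * g i - (M.C *ᵥ g) i) = ∑ i, piv i * ((s + M.lam i) * g i) := by
  have e : ∀ i, piv i * (s * g i - (M.C *ᵥ g) i) =
      piv i * ((s + M.lam i) * g i) - piv i * (M.Q *ᵥ g) i := by
    intro i; rw [C_mulVec]; ring
  simp_rw [e]
  rw [sum_sub_distrib]
  have : ∑ i, piv i * (M.Q *ᵥ g) i = 0 := by
    have e2 : ∑ i, piv i * (M.Q *ᵥ g) i = ∑ j, (∑ i, piv i * M.Q i j) * g j := by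
      simp only [Matrix.mulVec, dotProduct, mul_sum, sum_mul]
      rw [sum_comm]
      exact sum_congr rfl fun j _ => sum_congr rfl fun i _ => by ring
    rw [e2]
    exact sum_eq_zero fun j _ => by rw [col_sum M h j]; ring
  rw [this]; ring

lemma form_nonneg (h : M.IsStat piv) {s : ℝ} (hs : 0 ≤ s) (g : Fin p → ℝ) :
    0 ≤ form M piv s g :=
  add_nonneg (sum_nonneg fun i _ => mul_nonneg (h.nonneg i)
    (mul_nonneg (add_nonneg hs (M.lam_nonneg i)) (sq_nonneg _))) (energy_nonneg M h g)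

lemma eq_zero_of_form (h : M.IsStat piv) {s : ℝ} (hs : 0 ≤ s) (g : Fin p → ℝ)
    (hg : form M piv s g = 0) : g = 0 := by
  have nn : ∀ i ∈ (univ : Finset (Fin p)), 0 ≤ piv i * ((s + M.lam i) * (g i) ^ 2) :=
    fun i _ => mul_nonneg (h.nonneg i)
      (mul_nonneg (add_nonneg hs (M.lam_nonneg i)) (sq_nonneg _))
  have h1 : energy M piv g = 0 := by
    have := sum_nonneg nn
    have h2 := energy_nonneg M h g
    unfold form at hg
    linarith
  have h2 : ∑ i, piv i * ((s + M.lam i) * (g i) ^ 2) = 0 := by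
    unfold form at hg
    linarith
  obtain ⟨k, hk⟩ := M.lam_ne
  have hk' : 0 < M.lam k := lt_of_le_of_ne (M.lam_nonneg k) (Ne.symm hk)
  have h3 := (sum_eq_zero_iff_of_nonneg nn).1 h2 k (mem_univ _)
  have h4 : g k = 0 := by
    rcases mul_eq_zero.1 h3 with h5 | h5
    · exact absurd h5 (piv_pos M h k).ne'
    · rcases mul_eq_zero.1 h5 with h6 | h6
      · linarith
      · simpa using h6
  funext i
  rw [const_of_energy M h g h1 i k, h4]; rfl

lemma det_ne (h : M.IsStat piv) {s : ℝ} (hs : 0 ≤ s) :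
    IsUnit (s • (1 : Matrix (Fin p) (Fin p) ℝ) - M.C).det := by
  rw [isUnit_iff_ne_zero]
  intro hdet
  obtain ⟨v, hv, hv2⟩ := Matrix.exists_mulVec_eq_zero_iff.2 hdet
  apply hv
  apply eq_zero_of_form M h hs
  rw [← form_eq M h]
  refine sum_eq_zero fun i _ => ?_
  have := congrFun hv2 i
  simp only [Matrix.sub_mulVec, Matrix.smul_mulVec, Matrix.one_mulVec, Pi.sub_apply, Pi.smul_apply,
    smul_eq_mul, Pi.zero_apply] at this
  rw [this]; ring

/-- The main inequality. -/
lemma main_ineq (h : M.IsStat piv) {s : ℝ} (hs : 0 ≤ s) (g : Fin p → ℝ)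
    (hg : ∀ i, s * g i - (M.C *ᵥ g) i = 1) :
    1 ≤ (s + ∑ i, piv i * M.lam i) * ∑ i, piv i * g i ∧
    (1 = (s + ∑ i, piv i * M.lam i) * ∑ i, piv i * g i → energy M piv g = 0) := by
  have h1 : ∑ i, piv i * ((s + M.lam i) * g i) = 1 := by
    rw [← sum_C M h s g]
    simp_rw [hg]
    simp [h.sum_one]
  have h2 : ∑ i, piv i * g i = form M piv s g := by
    rw [← form_eq M h s g]
    exact sum_congr rfl fun i _ => by rw [hg i]; ring
  have h3 : s + ∑ i, piv i * M.lam i = ∑ i, piv i * (s + M.lam i) := by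
    simp_rw [mul_add]
    rw [sum_add_distrib, ← sum_mul, h.sum_one]; ring
  have nn : ∀ i ∈ (univ : Finset (Fin p)), 0 ≤ piv i * (s + M.lam i) :=
    fun i _ => mul_nonneg (h.nonneg i) (add_nonneg hs (M.lam_nonneg i))
  have cs := Finset.sum_mul_sq_le_sq_mul_sq (univ : Finset (Fin p))
    (fun i => Real.sqrt (piv i * (s + M.lam i))) (fun i => Real.sqrt (piv i * (s + M.lam i)) * g i)
  have e1 : ∀ i, Real.sqrt (piv i * (s + M.lam i)) * (Real.sqrt (piv i * (s + M.lam i)) * g i) =
      piv i * ((s + M.lam i) * g i) := by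
    intro i
    rw [← mul_assoc, Real.mul_self_sqrt (nn i (mem_univ _))]; ring
  have e2 : ∀ i, Real.sqrt (piv i * (s + M.lam i)) ^ 2 = piv i * (s + M.lam i) :=
    fun i => Real.sq_sqrt (nn i (mem_univ _))
  have e3 : ∀ i, (Real.sqrt (piv i * (s + M.lam i)) * g i) ^ 2 =
      piv i * ((s + M.lam i) * (g i) ^ 2) := by
    intro i
    rw [mul_pow, e2 i]; ring
  simp only [e1, e2, e3] at cs
  rw [h1, ← h3] at cs
  have hpos : 0 < s + ∑ i, piv i * M.lam i := by
    obtain ⟨k, hk⟩ := M.lam_ne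
    have hk' : 0 < M.lam k := lt_of_le_of_ne (M.lam_nonneg k) (Ne.symm hk)
    have : 0 < ∑ i, piv i * M.lam i :=
      sum_pos' (fun i _ => mul_nonneg (h.nonneg i) (M.lam_nonneg i))
        ⟨k, mem_univ _, mul_pos (piv_pos M h k) hk'⟩
    linarith
  have h4 := energy_nonneg M h g
  rw [h2]
  unfold form
  constructor
  · nlinarith
  · intro heq
    have : (s + ∑ i, piv i * M.lam i) * energy M piv g ≤ 0 := by nlinarith
    have h5 : energy M piv g ≤ 0 := by
      by_contra hc
      push Not at hc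
      have := mul_pos hpos hc
      linarith
    linarith

end Pool.Agent.T9h98.Mmpp
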