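import Mathlib
import Pool.Agent.T9h98.Mmpp.Basic

/-! First event times of Markov-modulated Poisson processes: decay and moments. -/

namespace Pool.Agent.T9h98.Mmpp

open Matrix Pool.R957.Mmpp Finset MeasureTheory Set Filter Topology

variable {p : ℕ}

/-- The survival function `P(T > t) = η e^{Ct} 1` of the first event time when the background
chain starts from the distribution `η`. -/
noncomputable def surv (M : MMPP p) (η : Fin p → ℝ) (t : ℝ) : ℝ :=
  η ⬝ᵥ (NormedSpace.exp (t • M.C) *ᵥ 1)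

/-- The mean `E T = ∫_0^∞ P(T > t) dt`. -/
noncomputable def mean (M : MMPP p) (η : Fin p → ℝ) : ℝ := ∫ t in Ioi (0 : ℝ), surv M η t

/-- The second moment `E T² = ∫_0^∞ 2 t P(T > t) dt`. -/
noncomputable def second (M : MMPP p) (η : Fin p → ℝ) : ℝ :=
  ∫ t in Ioi (0 : ℝ), 2 * t * surv M η t

/-- The squared coefficient of variation `Var T / (E T)²`. -/
noncomputable def scv (M : MMPP p) (η : Fin p → ℝ) : ℝ :=
  (second M η - mean M η ^ 2) / mean M η ^ 2

/-- The event-stationary distribution `α = π D / (π D 1)`. -/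
noncomputable def alpha (M : MMPP p) (piv : Fin p → ℝ) : Fin p → ℝ :=
  (piv ⬝ᵥ (M.D *ᵥ 1))⁻¹ • (piv ᵥ* M.D)

variable (M : MMPP p) {piv : Fin p → ℝ}

/-- `e^{-st} e^{Ct} 1` -/
noncomputable def vv (M : MMPP p) (s t : ℝ) : Fin p → ℝ :=
  Real.exp (-(s * t)) • (NormedSpace.exp (t • M.C) *ᵥ 1)

lemma hasDerivAt_u (t : ℝ) :
    HasDerivAt (fun t : ℝ => NormedSpace.exp (t • M.C) *ᵥ (1 : Fin p → ℝ))
      (M.C *ᵥ (NormedSpace.exp (t • M.C) *ᵥ 1)) t := by
  letI : NormedRing (Matrix (Fin p) (Fin p) ℝ) := Matrix.linftyOpNormedRing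
  letI : NormedAlgebra ℝ (Matrix (Fin p) (Fin p) ℝ) := Matrix.linftyOpNormedAlgebra
  have h1 := hasDerivAt_exp_smul_const' (𝕂 := ℝ) M.C t
  let L : Matrix (Fin p) (Fin p) ℝ →ₗ[ℝ] (Fin p → ℝ) :=
    { toFun := fun A => A *ᵥ 1
      map_add' := fun A B => Matrix.add_mulVec A B 1
      map_smul' := fun c A => by simp [Matrix.smul_mulVec] }
  have h2 : HasDerivAt (fun u : ℝ => L (NormedSpace.exp (u • M.C)))
      (L (M.C * NormedSpace.exp (t • M.C))) t :=
    (LinearMap.toContinuousLinearMap L).hasFDerivAt.comp_hasDerivAt t h1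
  have h3 : L (M.C * NormedSpace.exp (t • M.C)) = M.C *ᵥ (NormedSpace.exp (t • M.C) *ᵥ 1) := by
    show (M.C * NormedSpace.exp (t • M.C)) *ᵥ 1 = _
    rw [Matrix.mulVec_mulVec]
  rw [h3] at h2
  exact h2

lemma hasDerivAt_e (c t : ℝ) :
    HasDerivAt (fun t : ℝ => Real.exp (c * t)) (c * Real.exp (c * t)) t := by
  have h0 : HasDerivAt (fun t : ℝ => c * t) c t := by
    simpa using (hasDerivAt_id t).const_mul c
  have h1 := h0.exp
  rw [mul_comm] at h1
  exact h1

lemma hasDerivAt_coord (s t : ℝ) (i : Fin p) :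
    HasDerivAt (fun t => vv M s t i) ((M.C *ᵥ vv M s t) i - s * vv M s t i) t := by
  have h1 := hasDerivAt_e (-s) t
  have h2 := h1.mul ((hasDerivAt_pi.1 (hasDerivAt_u M t)) i)
  have e : (M.C *ᵥ vv M s t) i - s * vv M s t i =
      -s * Real.exp (-s * t) * (NormedSpace.exp (t • M.C) *ᵥ (1 : Fin p → ℝ)) i +
        Real.exp (-s * t) * (M.C *ᵥ (NormedSpace.exp (t • M.C) *ᵥ 1)) i := by
    unfold vv
    rw [Matrix.mulVec_smul]
    simp only [Pi.smul_apply, smul_eq_mul, neg_mul]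
    ring
  rw [e]
  have e2 : (fun t => vv M s t i) =
      (fun t => Real.exp (-s * t)) * fun t => (NormedSpace.exp (t • M.C) *ᵥ (1 : Fin p → ℝ)) i := by
    funext t
    simp [vv]
  rw [e2]
  exact h2
/-- energy -/
noncomputable def nn (M : MMPP p) (piv : Fin p → ℝ) (s t : ℝ) : ℝ := ∑ i, piv i * (vv M s t i) ^ 2

lemma hasDerivAt_nn (h : M.IsStat piv) (s t : ℝ) :
    HasDerivAt (nn M piv s) (-2 * form M piv s (vv M s t)) t := by
  have h1 : HasDerivAt (fun t => ∑ i, piv i * (vv M s t i) ^ 2)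
      (∑ i, piv i * (2 * vv M s t i ^ 1 * ((M.C *ᵥ vv M s t) i - s * vv M s t i))) t := by
    refine HasDerivAt.fun_sum fun i _ => ?_
    have := ((hasDerivAt_coord M s t i).pow 2).const_mul (piv i)
    simpa using this
  have e : -2 * form M piv s (vv M s t) =
      ∑ i, piv i * (2 * vv M s t i ^ 1 * ((M.C *ᵥ vv M s t) i - s * vv M s t i)) := by
    rw [← form_eq M h, Finset.mul_sum]
    exact Finset.sum_congr rfl fun i _ => by ring
  rw [e]
  exact h1

/-- coercivity -/
lemma exists_coercive (h : M.IsStat piv) {s : ℝ} (hs : 0 ≤ s) :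
    ∃ κ : ℝ, 0 < κ ∧ ∀ g : Fin p → ℝ, κ * ∑ i, piv i * (g i) ^ 2 ≤ form M piv s g := by
  have hne : (Finset.univ : Finset (Fin p)).Nonempty := by
    obtain ⟨k, _⟩ := M.lam_ne
    exact ⟨k, Finset.mem_univ _⟩
  have : Nonempty (Fin p) := by
    obtain ⟨k, _⟩ := hne
    exact ⟨k⟩
  have hc : Continuous fun g : Fin p → ℝ => form M piv s g := by
    unfold form energy
    fun_prop
  have hcomp : IsCompact (Metric.sphere (0 : Fin p → ℝ) 1) := isCompact_sphere _ _
  have hsne : (Metric.sphere (0 : Fin p → ℝ) 1).Nonempty := NormedSpace.sphere_nonempty.2 zero_le_one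
  obtain ⟨g0, hg0, hmin⟩ := hcomp.exists_isMinOn hsne hc.continuousOn
  have hpos : 0 < form M piv s g0 := by
    refine lt_of_le_of_ne (form_nonneg M h hs g0) fun heq => ?_
    have := eq_zero_of_form M h hs g0 heq.symm
    rw [this] at hg0
    simp at hg0
  refine ⟨form M piv s g0, hpos, fun g => ?_⟩
  have hform_smul : ∀ (c : ℝ) (g : Fin p → ℝ), form M piv s (c • g) = c ^ 2 * form M piv s g := by
    intro c g
    unfold form energy
    simp only [Pi.smul_apply, smul_eq_mul]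
    rw [mul_add, Finset.mul_sum]
    have e1 : ∀ i, piv i * ((s + M.lam i) * (c * g i) ^ 2) =
        c ^ 2 * (piv i * ((s + M.lam i) * g i ^ 2)) := fun i => by ring
    have e2 : ∀ i j, piv i * M.Q i j * (c * g i - c * g j) ^ 2 =
        c ^ 2 * (piv i * M.Q i j * (g i - g j) ^ 2) := fun i j => by ring
    simp_rw [e1, e2, ← Finset.mul_sum]
    ring
  by_cases hg : g = 0
  · subst hg
    simp only [Pi.zero_apply]
    have := form_nonneg M h hs (0 : Fin p → ℝ)
    simpa using this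
  have hgn : 0 < ‖g‖ := norm_pos_iff.2 hg
  have h1 : form M piv s g0 ≤ form M piv s (‖g‖⁻¹ • g) := by
    apply hmin
    simp [norm_smul, hgn.ne']
  rw [hform_smul] at h1
  have h2 : form M piv s g0 * ‖g‖ ^ 2 ≤ form M piv s g := by
    have := mul_le_mul_of_nonneg_right h1 (sq_nonneg ‖g‖)
    have e : (‖g‖⁻¹) ^ 2 * form M piv s g * ‖g‖ ^ 2 = form M piv s g := by
      field_simp
    rwa [e] at this
  have h3 : ∑ i, piv i * (g i) ^ 2 ≤ ‖g‖ ^ 2 := by
    calc ∑ i, piv i * (g i) ^ 2 ≤ ∑ i, piv i * ‖g‖ ^ 2 := by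
          refine sum_le_sum fun i _ => mul_le_mul_of_nonneg_left ?_ (h.nonneg i)
          rw [← sq_abs (g i)]
          exact pow_le_pow_left₀ (abs_nonneg _) (by simpa using norm_le_pi_norm g i) 2
      _ = ‖g‖ ^ 2 := by rw [← sum_mul, h.sum_one, one_mul]
  calc form M piv s g0 * ∑ i, piv i * (g i) ^ 2 ≤ form M piv s g0 * ‖g‖ ^ 2 :=
        mul_le_mul_of_nonneg_left h3 hpos.le
    _ ≤ form M piv s g := h2

/-- exponential decay -/
lemma exists_decay (h : M.IsStat piv) {s : ℝ} (hs : 0 ≤ s) :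
    ∃ κ K : ℝ, 0 < κ ∧ 0 ≤ K ∧ ∀ t : ℝ, 0 ≤ t → ∀ i, |vv M s t i| ≤ K * Real.exp (-(κ * t)) := by
  obtain ⟨κ, hκ, hco⟩ := exists_coercive M h hs
  have hanti : AntitoneOn (fun t => Real.exp (2 * κ * t) * nn M piv s t) (Set.Ici 0) := by
    apply antitoneOn_of_deriv_nonpos (convex_Ici 0)
    · apply Continuous.continuousOn
      apply Continuous.mul (by fun_prop)
      exact continuous_iff_continuousAt.2 fun t => (hasDerivAt_nn M h s t).continuousAt
    · intro t _
      have h1 := hasDerivAt_e (2 * κ) t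
      exact (h1.mul (hasDerivAt_nn M h s t)).differentiableAt.differentiableWithinAt
    · intro t _
      have h1 := hasDerivAt_e (2 * κ) t
      have hd : deriv (fun t => Real.exp (2 * κ * t) * nn M piv s t) t =
          2 * κ * Real.exp (2 * κ * t) * nn M piv s t +
            Real.exp (2 * κ * t) * (-2 * form M piv s (vv M s t)) :=
        (h1.mul (hasDerivAt_nn M h s t)).deriv
      rw [hd]
      have h2 := hco (vv M s t)
      have h3 : 0 < Real.exp (2 * κ * t) := Real.exp_pos _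
      have h4 : nn M piv s t = ∑ i, piv i * (vv M s t i) ^ 2 := rfl
      rw [h4]
      nlinarith
  have hb : ∀ t : ℝ, 0 ≤ t → nn M piv s t ≤ Real.exp (-(2 * κ * t)) * nn M piv s 0 := by
    intro t ht
    have := hanti (Set.mem_Ici.2 le_rfl) (Set.mem_Ici.2 ht) ht
    simp only [mul_zero, Real.exp_zero, one_mul] at this
    have h5 := mul_le_mul_of_nonneg_left this (Real.exp_pos (-(2 * κ * t))).le
    rwa [← mul_assoc, ← Real.exp_add, neg_add_cancel, Real.exp_zero, one_mul] at h5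
  have hN0 : 0 ≤ nn M piv s 0 := sum_nonneg fun i _ => mul_nonneg (h.nonneg i) (sq_nonneg _)
  obtain ⟨k, hk⟩ := M.lam_ne
  refine ⟨κ, ∑ i, Real.sqrt (nn M piv s 0 / piv i), hκ, sum_nonneg fun i _ => Real.sqrt_nonneg _,
    fun t ht i => ?_⟩
  have hpi := piv_pos M h i
  have h1 : piv i * (vv M s t i) ^ 2 ≤ nn M piv s t := by
    unfold nn
    exact Finset.single_le_sum (f := fun i => piv i * (vv M s t i) ^ 2)
      (fun j _ => mul_nonneg (h.nonneg j) (sq_nonneg _)) (Finset.mem_univ i)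
  have h2 : (vv M s t i) ^ 2 ≤ (Real.sqrt (nn M piv s 0 / piv i) * Real.exp (-(κ * t))) ^ 2 := by
    rw [mul_pow, Real.sq_sqrt (div_nonneg hN0 hpi.le), ← Real.exp_nat_mul]
    have h3 := h1.trans (hb t ht)
    have e : ((2 : ℕ) : ℝ) * -(κ * t) = -(2 * κ * t) := by push_cast; ring
    rw [e, div_mul_eq_mul_div, le_div_iff₀ hpi]
    linarith
  have h4 : |vv M s t i| ≤ Real.sqrt (nn M piv s 0 / piv i) * Real.exp (-(κ * t)) :=
    abs_le_of_sq_le_sq h2 (by positivity)
  refine h4.trans (mul_le_mul_of_nonneg_right ?_ (Real.exp_pos _).le)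
  exact Finset.single_le_sum (f := fun i => Real.sqrt (nn M piv s 0 / piv i))
      (fun j _ => Real.sqrt_nonneg _) (Finset.mem_univ i)

end Pool.Agent.T9h98.Mmpp
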