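import Mathlib
import Pool.Agent.T9h98.Mmpp.Time

/-! Moments and Laplace transforms of the first event times of an MMPP. -/

namespace Pool.Agent.T9h98.Mmpp

open Matrix Pool.R957.Mmpp MeasureTheory Set Filter Topology

variable {p : ℕ} (M : MMPP p) {piv : Fin p → ℝ}

lemma exists_bound (h : M.IsStat piv) {s : ℝ} (hs : 0 ≤ s) (a : Fin p → ℝ) :
    ∃ κ K : ℝ, 0 < κ ∧ 0 ≤ K ∧ ∀ t : ℝ, 0 ≤ t → |a ⬝ᵥ vv M s t| ≤ K * Real.exp (-(κ * t)) := by
  obtain ⟨κ, K, hκ, hK, hb⟩ := exists_decay M h hs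
  refine ⟨κ, ∑ i, |a i| * K, hκ, Finset.sum_nonneg fun i _ => mul_nonneg (abs_nonneg _) hK,
    fun t ht => ?_⟩
  calc |a ⬝ᵥ vv M s t| ≤ ∑ i, |a i * vv M s t i| := Finset.abs_sum_le_sum_abs _ _
    _ ≤ ∑ i, |a i| * K * Real.exp (-(κ * t)) := by
        refine Finset.sum_le_sum fun i _ => ?_
        rw [abs_mul, mul_assoc]
        exact mul_le_mul_of_nonneg_left (hb t ht i) (abs_nonneg _)
    _ = (∑ i, |a i| * K) * Real.exp (-(κ * t)) := by rw [Finset.sum_mul]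

lemma continuous_dot (s : ℝ) (a : Fin p → ℝ) : Continuous fun t => a ⬝ᵥ vv M s t := by
  have : ∀ i, Continuous fun t => vv M s t i := fun i =>
    continuous_iff_continuousAt.2 fun t => (hasDerivAt_coord M s t i).continuousAt
  unfold dotProduct
  exact continuous_finsetSum _ fun i _ => continuous_const.mul (this i)

lemma hasDerivAt_dot (s t : ℝ) (a : Fin p → ℝ) :
    HasDerivAt (fun t => a ⬝ᵥ vv M s t) (a ⬝ᵥ (M.C *ᵥ vv M s t - s • vv M s t)) t := by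
  unfold dotProduct
  refine HasDerivAt.fun_sum fun i _ => ?_
  have := (hasDerivAt_coord M s t i).const_mul (a i)
  simpa using this

lemma exp_bound_integrable {κ : ℝ} (hκ : 0 < κ) (n : ℕ) :
    IntegrableOn (fun t : ℝ => t ^ n * Real.exp (-(κ * t))) (Ioi 0) := by
  have := integrableOn_rpow_mul_exp_neg_mul_rpow (p := 1) (s := (n : ℝ)) (b := κ)
    (by have : (0 : ℝ) ≤ n := Nat.cast_nonneg n
        linarith) one_pos hκ
  refine this.congr_fun (fun t ht => ?_) measurableSet_Ioi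
  simp

lemma integrableOn_dot (h : M.IsStat piv) {s : ℝ} (hs : 0 ≤ s) (a : Fin p → ℝ) (n : ℕ) :
    IntegrableOn (fun t => t ^ n * (a ⬝ᵥ vv M s t)) (Ioi 0) := by
  obtain ⟨κ, K, hκ, hK, hb⟩ := exists_bound M h hs a
  have h1 := (exp_bound_integrable hκ n).const_mul K
  refine h1.mono' ?_ ?_
  · exact ((continuous_pow n).mul (continuous_dot M s a)).aestronglyMeasurable
  · refine (ae_restrict_iff' measurableSet_Ioi).2 (Eventually.of_forall fun t ht => ?_)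
    have ht' : (0 : ℝ) ≤ t := (mem_Ioi.1 ht).le
    rw [Real.norm_eq_abs, abs_mul, abs_of_nonneg (pow_nonneg ht' n)]
    calc t ^ n * |a ⬝ᵥ vv M s t| ≤ t ^ n * (K * Real.exp (-(κ * t))) :=
          mul_le_mul_of_nonneg_left (hb t ht') (pow_nonneg ht' n)
      _ = K * (t ^ n * Real.exp (-(κ * t))) := by ring

lemma tendsto_dot (h : M.IsStat piv) {s : ℝ} (hs : 0 ≤ s) (a : Fin p → ℝ) (n : ℕ) :
    Tendsto (fun t => t ^ n * (a ⬝ᵥ vv M s t)) atTop (𝓝 0) := by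
  obtain ⟨κ, K, hκ, hK, hb⟩ := exists_bound M h hs a
  have h1 : Tendsto (fun t : ℝ => K * (t ^ n * Real.exp (-(κ * t)))) atTop (𝓝 0) := by
    have h2 : Tendsto (fun t : ℝ => (κ * t) ^ n * Real.exp (-(κ * t))) atTop (𝓝 0) :=
      (Real.tendsto_pow_mul_exp_neg_atTop_nhds_zero n).comp (tendsto_id.const_mul_atTop hκ)
    have h3 := h2.const_mul (K * (κ⁻¹) ^ n)
    rw [mul_zero] at h3
    refine h3.congr fun t => ?_
    have e : (κ⁻¹) ^ n * κ ^ n = 1 := by rw [← mul_pow, inv_mul_cancel₀ hκ.ne', one_pow]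
    calc K * κ⁻¹ ^ n * ((κ * t) ^ n * Real.exp (-(κ * t)))
        = (κ⁻¹ ^ n * κ ^ n) * (K * (t ^ n * Real.exp (-(κ * t)))) := by rw [mul_pow]; ring
      _ = K * (t ^ n * Real.exp (-(κ * t))) := by rw [e, one_mul]
  refine squeeze_zero_norm' ?_ h1
  filter_upwards [eventually_ge_atTop 0] with t ht
  rw [Real.norm_eq_abs, abs_mul, abs_of_nonneg (pow_nonneg ht n)]
  calc t ^ n * |a ⬝ᵥ vv M s t| ≤ t ^ n * (K * Real.exp (-(κ * t))) :=
        mul_le_mul_of_nonneg_left (hb t ht) (pow_nonneg ht n)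
    _ = K * (t ^ n * Real.exp (-(κ * t))) := by ring

lemma vv_zero (s : ℝ) : vv M s 0 = 1 := by
  simp [vv]

/-- the resolvent of `C` -/
noncomputable def R (M : MMPP p) (s : ℝ) : Matrix (Fin p) (Fin p) ℝ :=
  (s • (1 : Matrix (Fin p) (Fin p) ℝ) - M.C)⁻¹

lemma R_mul (h : M.IsStat piv) {s : ℝ} (hs : 0 ≤ s) :
    R M s * (s • (1 : Matrix (Fin p) (Fin p) ℝ) - M.C) = 1 :=
  Matrix.nonsing_inv_mul _ (det_ne M h hs)

lemma mul_R (h : M.IsStat piv) {s : ℝ} (hs : 0 ≤ s) :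
    (s • (1 : Matrix (Fin p) (Fin p) ℝ) - M.C) * R M s = 1 :=
  Matrix.mul_nonsing_inv _ (det_ne M h hs)

lemma R_apply (h : M.IsStat piv) {s : ℝ} (hs : 0 ≤ s) (g : Fin p → ℝ) :
    R M s *ᵥ (M.C *ᵥ g - s • g) = - g := by
  have e : M.C *ᵥ g - s • g = -((s • (1 : Matrix (Fin p) (Fin p) ℝ) - M.C) *ᵥ g) := by
    rw [Matrix.sub_mulVec, Matrix.smul_mulVec, Matrix.one_mulVec]; abel
  rw [e, Matrix.mulVec_neg, Matrix.mulVec_mulVec, R_mul M h hs, Matrix.one_mulVec]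

lemma integral_dot (h : M.IsStat piv) {s : ℝ} (hs : 0 ≤ s) (a : Fin p → ℝ) :
    ∫ t in Ioi (0 : ℝ), a ⬝ᵥ vv M s t = a ⬝ᵥ (R M s *ᵥ 1) := by
  have hd : ∀ t ∈ Ici (0 : ℝ), HasDerivAt (fun t => -((a ᵥ* R M s) ⬝ᵥ vv M s t))
      (a ⬝ᵥ vv M s t) t := by
    intro t _
    have h1 := (hasDerivAt_dot M s t (a ᵥ* R M s)).neg
    have e : -((a ᵥ* R M s) ⬝ᵥ (M.C *ᵥ vv M s t - s • vv M s t)) = a ⬝ᵥ vv M s t := by
      rw [← Matrix.dotProduct_mulVec, R_apply M h hs, dotProduct_neg, neg_neg]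
    rw [e] at h1
    exact h1
  have hint : IntegrableOn (fun t => a ⬝ᵥ vv M s t) (Ioi 0) := by
    simpa using integrableOn_dot M h hs a 0
  have htend : Tendsto (fun t => -((a ᵥ* R M s) ⬝ᵥ vv M s t)) atTop (𝓝 0) := by
    have := (tendsto_dot M h hs (a ᵥ* R M s) 0).neg
    simpa using this
  rw [integral_Ioi_of_hasDerivAt_of_tendsto' hd hint htend, vv_zero, zero_sub, neg_neg,
    Matrix.dotProduct_mulVec]

lemma integral_t_dot (h : M.IsStat piv) (a : Fin p → ℝ) :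
    ∫ t in Ioi (0 : ℝ), 2 * t * (a ⬝ᵥ vv M 0 t) = 2 * (a ⬝ᵥ (R M 0 *ᵥ (R M 0 *ᵥ 1))) := by
  set b := a ᵥ* R M 0 with hb
  set c := b ᵥ* R M 0 with hc
  have hRe : ∀ (x : Fin p → ℝ) (t : ℝ),
      (x ᵥ* R M 0) ⬝ᵥ (M.C *ᵥ vv M 0 t - (0 : ℝ) • vv M 0 t) = -(x ⬝ᵥ vv M 0 t) := by
    intro x t
    rw [← Matrix.dotProduct_mulVec, R_apply M h le_rfl, dotProduct_neg]
  have hd : ∀ t ∈ Ici (0 : ℝ), HasDerivAt
      (fun t => -(2 * (t * (b ⬝ᵥ vv M 0 t) + c ⬝ᵥ vv M 0 t))) (2 * t * (a ⬝ᵥ vv M 0 t)) t := by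
    intro t _
    have h1 := hasDerivAt_dot M 0 t b
    have h2 := hasDerivAt_dot M 0 t c
    rw [hb, hRe] at h1
    rw [hc, hRe] at h2
    have h3 := ((((hasDerivAt_id t).mul h1).add h2).const_mul 2).neg
    have e : -(2 * (1 * (b ⬝ᵥ vv M 0 t) + id t * -(a ⬝ᵥ vv M 0 t) + -(b ⬝ᵥ vv M 0 t))) =
        2 * t * (a ⬝ᵥ vv M 0 t) := by simp only [id_eq]; ring
    rw [← e]
    exact h3
  have hint : IntegrableOn (fun t => 2 * t * (a ⬝ᵥ vv M 0 t)) (Ioi 0) := by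
    have h1 : IntegrableOn (fun t => 2 * (t ^ 1 * (a ⬝ᵥ vv M 0 t))) (Ioi 0) :=
      (integrableOn_dot M h le_rfl a 1).const_mul 2
    refine h1.congr_fun (fun t _ => ?_) measurableSet_Ioi
    simp only [pow_one]
    ring
  have htend : Tendsto (fun t => -(2 * (t * (b ⬝ᵥ vv M 0 t) + c ⬝ᵥ vv M 0 t))) atTop (𝓝 0) := by
    have h1 := tendsto_dot M h le_rfl b 1
    have h2 := tendsto_dot M h le_rfl c 0
    have h3 := ((h1.add h2).const_mul 2).neg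
    simpa using h3
  rw [integral_Ioi_of_hasDerivAt_of_tendsto' hd hint htend, vv_zero]
  simp only [zero_mul, zero_add, zero_sub, neg_neg]
  rw [hc, hb, ← Matrix.dotProduct_mulVec, ← Matrix.dotProduct_mulVec]

lemma surv_eq (a : Fin p → ℝ) (s t : ℝ) :
    Real.exp (-(s * t)) * surv M a t = a ⬝ᵥ vv M s t := by
  unfold surv vv
  rw [dotProduct_smul, smul_eq_mul]

lemma surv_eq0 (a : Fin p → ℝ) (t : ℝ) : surv M a t = a ⬝ᵥ vv M 0 t := by
  rw [← surv_eq]; simp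

lemma pD_one (piv : Fin p → ℝ) : piv ⬝ᵥ (M.D *ᵥ 1) = ∑ i, piv i * M.lam i := by
  unfold dotProduct
  exact Finset.sum_congr rfl fun i _ => by rw [D_mulVec]; simp

lemma pD_pos (h : M.IsStat piv) : 0 < piv ⬝ᵥ (M.D *ᵥ 1) := by
  rw [pD_one]
  obtain ⟨k, hk⟩ := M.lam_ne
  have hk' : 0 < M.lam k := lt_of_le_of_ne (M.lam_nonneg k) (Ne.symm hk)
  exact Finset.sum_pos' (fun i _ => mul_nonneg (h.nonneg i) (M.lam_nonneg i))
    ⟨k, Finset.mem_univ _, mul_pos (piv_pos M h k) hk'⟩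

lemma pD_eq (h : M.IsStat piv) : piv ᵥ* M.D = -(piv ᵥ* M.C) := by
  have : piv ᵥ* M.C = piv ᵥ* M.Q - piv ᵥ* M.D := by
    unfold MMPP.C; rw [Matrix.vecMul_sub]
  rw [this, h.stat]; simp

/-- the solution of `(s - C) g = 1` -/
lemma R_one_spec (h : M.IsStat piv) {s : ℝ} (hs : 0 ≤ s) (i : Fin p) :
    s * (R M s *ᵥ 1) i - (M.C *ᵥ (R M s *ᵥ 1)) i = 1 := by
  have h1 : (s • (1 : Matrix (Fin p) (Fin p) ℝ) - M.C) *ᵥ (R M s *ᵥ 1) = 1 := by
    rw [Matrix.mulVec_mulVec, mul_R M h hs, Matrix.one_mulVec]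
  have h2 := congrFun h1 i
  rw [Matrix.sub_mulVec, Matrix.smul_mulVec, Matrix.one_mulVec] at h2
  simpa only [Pi.sub_apply, Pi.smul_apply, smul_eq_mul, Pi.one_apply] using h2

lemma piv_one (h : M.IsStat piv) : piv ⬝ᵥ (1 : Fin p → ℝ) = 1 := by
  rw [dotProduct_one, h.sum_one]

lemma alpha_R (h : M.IsStat piv) {s : ℝ} (hs : 0 ≤ s) (g : Fin p → ℝ) :
    alpha M piv ⬝ᵥ (R M s *ᵥ g) =
      (piv ⬝ᵥ (M.D *ᵥ 1))⁻¹ * (piv ⬝ᵥ g - s * (piv ⬝ᵥ (R M s *ᵥ g))) := by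
  unfold alpha
  rw [smul_dotProduct, smul_eq_mul, pD_eq M h, neg_dotProduct, ← Matrix.dotProduct_mulVec]
  have h1 : M.C *ᵥ (R M s *ᵥ g) = s • (R M s *ᵥ g) - g := by
    have h2 : (s • (1 : Matrix (Fin p) (Fin p) ℝ) - M.C) *ᵥ (R M s *ᵥ g) = g := by
      rw [Matrix.mulVec_mulVec, mul_R M h hs, Matrix.one_mulVec]
    rw [Matrix.sub_mulVec, Matrix.smul_mulVec, Matrix.one_mulVec] at h2
    rw [eq_sub_iff_add_eq, add_comm, ← sub_eq_iff_eq_add.1 h2]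
  rw [h1, dotProduct_sub, dotProduct_smul, smul_eq_mul]
  ring

lemma mean_alpha (h : M.IsStat piv) : mean M (alpha M piv) = (piv ⬝ᵥ (M.D *ᵥ 1))⁻¹ := by
  unfold mean
  simp_rw [surv_eq0]
  rw [integral_dot M h le_rfl, alpha_R M h le_rfl, piv_one M h]
  simp

lemma mean_piv (h : M.IsStat piv) : mean M piv = piv ⬝ᵥ (R M 0 *ᵥ 1) := by
  unfold mean
  simp_rw [surv_eq0]
  rw [integral_dot M h le_rfl]

lemma second_alpha (h : M.IsStat piv) :
    second M (alpha M piv) = 2 * ((piv ⬝ᵥ (M.D *ᵥ 1))⁻¹ * (piv ⬝ᵥ (R M 0 *ᵥ 1))) := by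
  unfold second
  simp_rw [surv_eq0]
  rw [integral_t_dot M h, alpha_R M h le_rfl]
  simp

lemma key (h : M.IsStat piv) {s : ℝ} (hs : 0 ≤ s) :
    1 ≤ (s + piv ⬝ᵥ (M.D *ᵥ 1)) * (piv ⬝ᵥ (R M s *ᵥ 1)) := by
  have := (main_ineq M h hs (R M s *ᵥ 1) (R_one_spec M h hs)).1
  rw [pD_one]
  exact this

lemma key_eq (h : M.IsStat piv) :
    (piv ⬝ᵥ (M.D *ᵥ 1)) * (piv ⬝ᵥ (R M 0 *ᵥ 1)) = 1 ↔ ∀ i j, M.lam i = M.lam j := by
  have hsp := R_one_spec M h (le_refl (0 : ℝ))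
  constructor
  · intro heq i j
    have h1 := (main_ineq M h le_rfl (R M 0 *ᵥ 1) hsp).2
    rw [zero_add, ← pD_one] at h1
    have h2 := const_of_energy M h _ (h1 heq.symm)
    have h3 : ∀ i, M.lam i * (R M 0 *ᵥ 1) i = 1 := by
      intro i
      have h4 := hsp i
      rw [zero_mul, zero_sub, C_mulVec] at h4
      have h5 : (M.Q *ᵥ (R M 0 *ᵥ 1)) i = 0 := by
        unfold Matrix.mulVec dotProduct
        have : ∀ j, M.Q i j * (R M 0 *ᵥ 1) j = M.Q i j * (R M 0 *ᵥ 1) i := fun j => by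
          rw [h2 j i]
        have e : ∑ j, M.Q i j * (R M 0 *ᵥ 1) j = 0 := by
          rw [Finset.sum_congr rfl fun j _ => this j, ← Finset.sum_mul, M.gen.rowsum i, zero_mul]
        exact e
      rw [h5] at h4
      linarith
    have hi := h3 i
    have hj := h3 j
    rw [h2 j i] at hj
    have hne : (R M 0 *ᵥ 1) i ≠ 0 := by
      intro h0; rw [h0, mul_zero] at hi; exact zero_ne_one hi
    exact mul_right_cancel₀ hne (hi.trans hj.symm)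
  · intro hl
    obtain ⟨k, hk⟩ := M.lam_ne
    have h1 : R M 0 *ᵥ 1 = fun _ => (M.lam k)⁻¹ := by
      have h2 : ((0 : ℝ) • (1 : Matrix (Fin p) (Fin p) ℝ) - M.C) *ᵥ (fun _ => (M.lam k)⁻¹) = 1 := by
        funext i
        rw [Matrix.sub_mulVec, Matrix.smul_mulVec, Pi.sub_apply, C_mulVec, hl i k]
        have h5 : (M.Q *ᵥ (fun _ => (M.lam k)⁻¹)) i = 0 := by
          unfold Matrix.mulVec dotProduct
          rw [← Finset.sum_mul, M.gen.rowsum i, zero_mul]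
        rw [h5]
        simp [hk]
      have h3 := congrArg (fun v => R M 0 *ᵥ v) h2
      beta_reduce at h3
      rw [Matrix.mulVec_mulVec, R_mul M h le_rfl, Matrix.one_mulVec] at h3
      exact h3.symm
    have h2 : piv ⬝ᵥ (M.D *ᵥ 1) = M.lam k := by
      rw [pD_one, Finset.sum_congr rfl fun i _ => by rw [hl i k], ← Finset.sum_mul, h.sum_one,
        one_mul]
    have h3 : piv ⬝ᵥ (R M 0 *ᵥ 1) = (M.lam k)⁻¹ := by
      rw [h1]
      unfold dotProduct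
      rw [← Finset.sum_mul, h.sum_one, one_mul]
    rw [h2, h3, mul_inv_cancel₀ hk]

end Pool.Agent.T9h98.Mmpp
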